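import Pool.Agent.Q82.LQ.Fin2

/-!
# Sharp extrapolation for `ℓ^q(L^p)` Fourier decompositions (MP_b78339_an, Q1): the answer is yes

For every complex Banach space `X` and `p, q, r ∈ (1,∞)`, with `θ = min (p/r) (p'/r')`:
lower `ℓ^q(L^p)`-decompositions imply lower `ℓ^s(L^r)`-decompositions, `s = q/θ`, and, if `X` is UMD,
upper `ℓ^q(L^p)`-decompositions imply upper `ℓ^s(L^r)`-decompositions, `s' = q'/θ`.

Idea for the lower part, `r < p`: Marcinkiewicz interpolation between weak `(1,1)` and strong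
`(p,p)` for every interval `I` separately, with a cut-off that depends on `I` through
`w_I = Σ_j 2^{j(r-p)} ‖D_I (f 1_{‖f‖ ≤ 2^j})‖_p^p`; the numbers `w_I` are summed with Minkowski's
inequality in `ℓ^{q/p}` (`q ≥ p` always).  For `r > p` the sharp function replaces weak `(1,1)`.
The upper part follows by duality.
-/

set_option autoImplicit false

namespace Pool.Agent.Results.MP_b78339_an.SharpExtrapolation

open MeasureTheory
open scoped NNReal

/-- The conjugate exponent `t' = t/(t-1)`. -/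
noncomputable def conj (t : ℝ) : ℝ := t / (t - 1)

/-- `θ_{p,r} = min (p/r) (p'/r')`. -/
noncomputable def theta (p r : ℝ) : ℝ := min (p / r) (conj p / conj r)

/-- `e_n(t) = e^{2πint}`. -/
noncomputable def expo (n : ℤ) (t : ℝ) : ℂ := Complex.exp (2 * Real.pi * Complex.I * n * t)

section

variable {X : Type} [NormedAddCommGroup X] [NormedSpace ℂ X]

/-- The value at `t` of the trigonometric polynomial `f = Σ_n e_n c_n`, given by its finitely many
nonzero coefficients `c : ℤ →₀ X`. -/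
noncomputable def value (c : ℤ →₀ X) (t : ℝ) : X := c.sum fun n x => expo n t • x

/-- The norm of `f = Σ_n e_n c_n` in `L^p(𝕋; X)`, `𝕋 = ℝ/ℤ`. -/
noncomputable def normLp (p : ℝ) (c : ℤ →₀ X) : ℝ := (∫ t in (0 : ℝ)..1, ‖value c t‖ ^ p) ^ (1 / p)

open Classical in
/-- `D_I f = Σ_{n ∈ I} e_n c_n`. -/
noncomputable def part (I : Set ℤ) (c : ℤ →₀ X) : ℤ →₀ X := c.filter (· ∈ I)

end

/-- Partitions of `ℤ` whose members are intervals of integers. -/
def IntervalPartition (P : Set (Set ℤ)) : Prop := Setoid.IsPartition P ∧ ∀ I ∈ P, I.OrdConnected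

/-- `X` has upper `ℓ^q(L^p)`-decompositions. -/
def Upper (X : Type) [NormedAddCommGroup X] [NormedSpace ℂ X] (q p : ℝ) : Prop :=
  ∃ U : ℝ, ∀ P : Set (Set ℤ), IntervalPartition P → ∀ c : ℤ →₀ X,
    normLp p c ≤ U * (∑' I : P, normLp p (part (I : Set ℤ) c) ^ q) ^ (1 / q)

/-- `X` has lower `ℓ^q(L^p)`-decompositions. -/
def Lower (X : Type) [NormedAddCommGroup X] [NormedSpace ℂ X] (q p : ℝ) : Prop :=
  ∃ L : ℝ, ∀ P : Set (Set ℤ), IntervalPartition P → ∀ c : ℤ →₀ X,
    (∑' I : P, normLp p (part (I : Set ℤ) c) ^ q) ^ (1 / q) ≤ L * normLp p c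

/-- The UMD property: unconditionality of martingale differences in `L^p`, for all `1 < p < ∞`. -/
def UMD (X : Type) [NormedAddCommGroup X] [NormedSpace ℂ X] [CompleteSpace X] : Prop :=
  ∀ p : ℝ, 1 < p → ∃ β : ℝ≥0, ∀ (Ω : Type) (mΩ : MeasurableSpace Ω) (μ : Measure Ω),
    IsProbabilityMeasure μ → ∀ (ℱ : Filtration ℕ mΩ) (f : ℕ → Ω → X), Martingale f ℱ μ →
    (∀ n, MemLp (f n) (ENNReal.ofReal p) μ) → ∀ (ε : ℕ → ℝ), (∀ n, ε n = 1 ∨ ε n = -1) → ∀ N,
      eLpNorm (fun ω => ε 0 • f 0 ω + ∑ n ∈ Finset.range N, ε (n + 1) • (f (n + 1) ω - f n ω))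
        (ENNReal.ofReal p) μ ≤ β * eLpNorm (f N) (ENNReal.ofReal p) μ

/-- The answer to Q1 is yes; part (b) holds for every Banach space. -/
theorem result (X : Type) [NormedAddCommGroup X] [NormedSpace ℂ X] [CompleteSpace X]
    (p q r : ℝ) (hp : 1 < p) (hq : 1 < q) (hr : 1 < r) :
    (UMD X → Upper X q p → Upper X (conj (conj q / theta p r)) r) ∧
    (Lower X q p → Lower X (q / theta p r) r) :=
  ⟨fun hX h => Pool.Agent.Q82.LQ.uppF X hX p q r hp hq hr h,
    fun h => Pool.Agent.Q82.LQ.low X p q r hp hq hr h⟩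

end Pool.Agent.Results.MP_b78339_an.SharpExtrapolation
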